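import Mathlib.Analysis.RCLike.Basic
import Mathlib.LinearAlgebra.Matrix.NonsingularInverse
import Mathlib.LinearAlgebra.Matrix.ToLin
import Mathlib.LinearAlgebra.Matrix.Notation
import Mathlib.Tactic.FinCases
import Mathlib.Tactic.LinearCombination

/-!
# A square root of `X^[*] X` with the right kernel need not give an `H`-selfadjoint one

Negative answer to Q1 of MP_154e02_al, over `ℝ` and over `ℂ`:
`H = diag(1, 1, -1, -1)` and `X^[*] X = diag(-1, -1, -4, -4)`.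
-/

set_option autoImplicit false

open Matrix

namespace Pool.Agent.Results.MP_154e02_al.NoSelfadjointRoot

variable {𝔽 : Type*} [RCLike 𝔽] {n : ℕ}

/-- The `H`-adjoint `X^[*] = H⁻¹ X^* H`. -/
noncomputable def adj (H X : Matrix (Fin n) (Fin n) 𝔽) : Matrix (Fin n) (Fin n) 𝔽 := H⁻¹ * Xᴴ * H

/-- The kernel of a matrix. -/
def ker (X : Matrix (Fin n) (Fin n) 𝔽) : Set (Fin n → 𝔽) := {v | X *ᵥ v = 0}

/-- `A` is `H`-selfadjoint: `A^[*] = A`. -/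
def IsSelfadjoint (H A : Matrix (Fin n) (Fin n) 𝔽) : Prop := adj H A = A

/-- `H = diag(1, 1, -1, -1)` -/
def H0 (𝔽 : Type*) [RCLike 𝔽] : Matrix (Fin 4) (Fin 4) 𝔽 := Matrix.diagonal ![1, 1, -1, -1]

/-- The matrix `X`. -/
def X0 (𝔽 : Type*) [RCLike 𝔽] : Matrix (Fin 4) (Fin 4) 𝔽 :=
  !![0, 0, 2, 0; 0, 0, 0, 2; 1, 0, 0, 0; 0, 1, 0, 0]

/-- The matrix `Y`. -/
def Y0 (𝔽 : Type*) [RCLike 𝔽] : Matrix (Fin 4) (Fin 4) 𝔽 :=
  !![0, -1, 0, 0; 1, 0, 0, 0; 0, 0, 0, -2; 0, 0, 2, 0]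

/-- `X^[*] X`. -/
def Z0 (𝔽 : Type*) [RCLike 𝔽] : Matrix (Fin 4) (Fin 4) 𝔽 :=
  !![-1, 0, 0, 0; 0, -1, 0, 0; 0, 0, -4, 0; 0, 0, 0, -4]

theorem H0_sq : H0 𝔽 * H0 𝔽 = 1 := by
  rw [H0, Matrix.diagonal_mul_diagonal, ← Matrix.diagonal_one]
  congr 1
  funext i
  fin_cases i <;> simp

theorem H0_inv : (H0 𝔽)⁻¹ = H0 𝔽 := Matrix.inv_eq_left_inv H0_sq

theorem adj_H0 (A : Matrix (Fin 4) (Fin 4) 𝔽) (i j : Fin 4) : adj (H0 𝔽) A i j =
    (![1, 1, -1, -1] : Fin 4 → 𝔽) i * star (A j i) * (![1, 1, -1, -1] : Fin 4 → 𝔽) j := by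
  rw [adj, H0_inv, H0, Matrix.mul_diagonal, Matrix.diagonal_mul, Matrix.conjTranspose_apply]

theorem adj_X0 : adj (H0 𝔽) (X0 𝔽) * X0 𝔽 = Z0 𝔽 := by
  ext i j
  rw [Matrix.mul_apply, Fin.sum_univ_four]
  simp only [adj_H0]
  fin_cases i <;> fin_cases j <;> simp [X0, Z0] <;> norm_num

theorem Y0_sq : Y0 𝔽 * Y0 𝔽 = Z0 𝔽 := by
  ext i j
  fin_cases i <;> fin_cases j <;>
    simp [Y0, Z0, Matrix.mul_apply, Fin.sum_univ_succ] <;> norm_num

theorem ker_zero_of_left {B C : Matrix (Fin n) (Fin n) 𝔽} (h : B * C = 1) : ker C = {0} := by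
  ext v
  rw [Set.mem_singleton_iff]
  constructor
  · intro (hv : C *ᵥ v = 0)
    rw [← Matrix.one_mulVec v, ← h, ← Matrix.mulVec_mulVec, hv, Matrix.mulVec_zero]
  · rintro rfl
    exact Matrix.mulVec_zero _

theorem ker_X0 : ker (X0 𝔽) = {0} := by
  refine ker_zero_of_left (B := !![0, 0, 1, 0; 0, 0, 0, 1; 1/2, 0, 0, 0; 0, 1/2, 0, 0]) ?_
  ext i j
  fin_cases i <;> fin_cases j <;> simp [X0, Matrix.mul_apply, Fin.sum_univ_succ]

theorem ker_Y0 : ker (Y0 𝔽) = {0} := by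
  refine ker_zero_of_left (B := !![0, 1, 0, 0; -1, 0, 0, 0; 0, 0, 0, 1/2; 0, 0, -1/2, 0]) ?_
  ext i j
  fin_cases i <;> fin_cases j <;> simp [Y0, Matrix.mul_apply, Fin.sum_univ_succ]

theorem no_root (A : Matrix (Fin 4) (Fin 4) 𝔽) (hA : IsSelfadjoint (H0 𝔽) A) :
    A * A ≠ Z0 𝔽 := by
  intro h
  have hcomm : A * Z0 𝔽 = Z0 𝔽 * A := by rw [← h, Matrix.mul_assoc]
  have h20 : A 2 0 = 0 := by
    have := congrFun (congrFun hcomm 2) 0
    simp [Z0, Matrix.mul_apply, Fin.sum_univ_succ] at this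
    have h3 : (3 : 𝔽) * A 2 0 = 0 := by linear_combination -this
    rcases mul_eq_zero.1 h3 with h | h
    · norm_num at h
    · exact h
  have h30 : A 3 0 = 0 := by
    have := congrFun (congrFun hcomm 3) 0
    simp [Z0, Matrix.mul_apply, Fin.sum_univ_succ] at this
    have h3 : (3 : 𝔽) * A 3 0 = 0 := by linear_combination -this
    rcases mul_eq_zero.1 h3 with h | h
    · norm_num at h
    · exact h
  rw [IsSelfadjoint] at hA
  have e00 : (starRingEnd 𝔽) (A 0 0) = A 0 0 := by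
    have := adj_H0 A 0 0
    rw [hA] at this
    simpa using this.symm
  have e01 : (starRingEnd 𝔽) (A 1 0) = A 0 1 := by
    have := adj_H0 A 0 1
    rw [hA] at this
    simpa using this.symm
  have hz := congrFun (congrFun h 0) 0
  simp [Z0, Matrix.mul_apply, Fin.sum_univ_succ] at hz
  have h2 : A 0 2 * A 2 0 = 0 := by rw [h20, mul_zero]
  have h3 : A 0 3 * A 3 0 = 0 := by rw [h30, mul_zero]
  have h4 : (starRingEnd 𝔽) (A 0 0) * A 0 0 + (starRingEnd 𝔽) (A 1 0) * A 1 0 = -1 := by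
    rw [e00, e01]
    simp [h20, h30] at hz
    exact hz
  rw [RCLike.conj_mul, RCLike.conj_mul] at h4
  have h5 := congrArg RCLike.re h4
  simp only [map_add, map_neg, RCLike.one_re] at h5
  norm_cast at h5
  have h6 := sq_nonneg ‖A 0 0‖
  have h7 := sq_nonneg ‖A 1 0‖
  have h8 : ‖A 0 0‖ ^ 2 + ‖A 1 0‖ ^ 2 = -1 := by
    exact_mod_cast h5
  linarith

/-- **Q1 is false over `ℝ` and over `ℂ`.**  There are an invertible hermitian `H` (of order `4`) and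
matrices `X`, `Y` with `Y² = X^[*] X` and `ker Y = ker X` such that no `H`-selfadjoint `A` satisfies
`A² = X^[*] X` (whatever its kernel). -/
theorem result (𝔽 : Type*) [RCLike 𝔽] : ∃ (n : ℕ) (H X Y : Matrix (Fin n) (Fin n) 𝔽),
    IsUnit H ∧ Hᴴ = H ∧ Y * Y = adj H X * X ∧ ker Y = ker X ∧
    ∀ A : Matrix (Fin n) (Fin n) 𝔽, IsSelfadjoint H A → A * A ≠ adj H X * X := by
  refine ⟨4, H0 𝔽, X0 𝔽, Y0 𝔽, IsUnit.of_mul_eq_one _ H0_sq, ?_, ?_, ?_, ?_⟩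
  · rw [H0, Matrix.diagonal_conjTranspose]
    congr 1
    funext i
    fin_cases i <;> simp
  · rw [Y0_sq, adj_X0]
  · rw [ker_X0, ker_Y0]
  · intro A hA
    rw [adj_X0]
    exact no_root A hA

end Pool.Agent.Results.MP_154e02_al.NoSelfadjointRoot
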